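import Pool.Agent.NPG.Stmts

/-!
# NPG, row SCN: the cover on the group, invariant under `L`
-/

set_option autoImplicit false

open Set Topology
open scoped Pointwise

namespace Pool.Agent.NPG.H47

open Pool.Agent.NPG

theorem scn (qml : QmlStmt) (cov : CovStmt) : ScnStmt := by
  intro H _ _ _ _ L V₀ hL hV hV1
  have hQ : TopologicalSpace.MetrizableSpace (H ⧸ L) := qml H L hL
  have hπc : Continuous (fun x : H => (x : H ⧸ L)) := continuous_quot_mk
  have hπm : ∀ x z : H, z ∈ L → ((x * z : H) : H ⧸ L) = (x : H ⧸ L) :=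
    fun x z hz => QuotientGroup.mk_mul_of_mem x hz
  obtain ⟨D', ξ', hc, hlf, hcov, hmem, hloc⟩ := cov (H ⧸ L) H
    (fun x => (fun y : H => (y : H ⧸ L)) '' {y | x⁻¹ * y ∈ V₀})
    (fun x => QuotientGroup.isOpenMap_coe _ (hV.preimage (continuous_const.mul continuous_id)))
    (fun q => by
      obtain ⟨x, rfl⟩ := QuotientGroup.mk_surjective q
      refine ⟨x, x, ?_, rfl⟩
      show x⁻¹ * x ∈ V₀
      rw [inv_mul_cancel]
      exact hV1)
  refine ⟨fun c => (fun x : H => (x : H ⧸ L)) ⁻¹' D' c, fun c x => ξ' c (x : H ⧸ L),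
    fun c => (hc c).preimage hπc, hlf.preimage_continuous hπc,
    fun x => hcov (x : H ⧸ L), ?_, ?_, ?_⟩
  · intro c x z hz
    show (((x * z : H) : H ⧸ L) ∈ D' c ↔ (x : H ⧸ L) ∈ D' c) ∧
      ξ' c ((x * z : H) : H ⧸ L) = ξ' c (x : H ⧸ L)
    rw [hπm x z hz]
    exact ⟨Iff.rfl, rfl⟩
  · intro c x hx
    obtain ⟨y, hy, hyx⟩ := hmem c (x : H ⧸ L) hx
    refine ⟨(ξ' c (x : H ⧸ L))⁻¹ * y, hy, y⁻¹ * x, QuotientGroup.eq.1 hyx, ?_⟩
    show x = ξ' c (x : H ⧸ L) * ((ξ' c (x : H ⧸ L))⁻¹ * y) * (y⁻¹ * x)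
    rw [mul_inv_cancel_left, mul_inv_cancel_left]
  · intro c x hx
    exact hπc.continuousAt.eventually (hloc c (x : H ⧸ L) hx)

end Pool.Agent.NPG.H47
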